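import Pool.Agent.Y133.Half.TateHalfDefs
import Pool.Agent.Y129.TDefs

/-!
# Cohomology theories of varieties over finite fields with the same Frobenius endomorphisms
-/

open CategoryTheory AlgebraicGeometry

universe u v

namespace Pool.Agent.Zk50.FI

open Pool.Agent.H914 Pool.Agent.H914.VarClass Pool.Agent.H914.VarClass.Obj
  Pool.Agent.H914.WeilCohomology Pool.Agent.W534 Pool.Agent.Y133.Half

variable {k : Type u} [Field k] {𝒱 : VarClass k} {ops : CycleOps 𝒱}

/-- A Weil cohomology theory (the `ℓ`-adic cohomology for a prime `ℓ`, the crystalline cohomology)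
for varieties over an algebraic closure of the field with `p` elements with the Frobenius
endomorphisms `Fr X` relative to the fields with `p ^ e X` elements, which satisfies the Riemann
hypothesis (Deligne, Katz and Messing) for an embedding `σ` of the coefficient field. The
endomorphisms `Fr X` are the same for all theories. -/
structure FrobTheory (ops : CycleOps 𝒱) (p : ℕ) (Fr : ∀ X : 𝒱.Obj, X ⟶ X) (e : 𝒱.Obj → ℕ) where
  /-- the Weil cohomology -/
  W : WeilCohomology.{u, v} ops
  /-- the Frobenius endomorphisms have the expected properties -/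
  Φ : FrobSystem W p
  Fr_eq : ∀ X, Φ.Fr X = Fr X
  e_eq : ∀ X, Φ.e X = e X
  /-- an embedding of the coefficient field -/
  σ : W.K →+* ℂ
  riemann : ∀ X, RiemannHyp Φ σ X
  nontrivial : ∀ X, Nontrivial (W.H X)

variable {p : ℕ} {Fr : ∀ X : 𝒱.Obj, X ⟶ X} {e : 𝒱.Obj → ℕ}

/-- Over all sufficiently large finite fields, the zeta function of `Z` has a pole of order `r` at
`j`. -/
def FrobTheory.IsPoleOrder (T : FrobTheory.{u, v} ops p Fr e) (Z : 𝒱.Obj) (j r : ℕ) : Prop :=
  ∃ t, 0 < t ∧ ∀ s, 0 < s → t ∣ s →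
    meromorphicOrderAt (zetaFn T.Φ T.σ Z s) (j : ℂ) = ((-(r : ℤ) : ℤ) : WithTop ℤ)

/-- The dimension of the space of the Tate classes of codimension `j`. -/
noncomputable def FrobTheory.tateRank (T : FrobTheory.{u, v} ops p Fr e) (Z : 𝒱.Obj) (j : ℕ) : ℕ :=
  dimOf T.W {c | IsTate T.Φ Z j c}

/-- The dimension of the space of the Tate classes of all codimensions. -/
noncomputable def FrobTheory.tateDim (T : FrobTheory.{u, v} ops p Fr e) (Z : 𝒱.Obj) : ℕ :=
  Pool.Agent.Y133.Half.tateDim T.Φ Z

/-- The Tate conjecture for all powers of `X`. -/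
def FrobTheory.TatePowers (T : FrobTheory.{u, v} ops p Fr e) (X : 𝒱.Obj) : Prop :=
  ∀ n j, TateIn T.Φ (pw X n) j

end Pool.Agent.Zk50.FI
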