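import Pool.Agent.Zk50.FI.Ss
import Pool.Agent.Helper605.TraceR
import Pool.Agent.N177.CL.Virt

/-!
# The virtual multiplicities of the Frobenius eigenvalues are independent of the cohomology theory
-/

open CategoryTheory AlgebraicGeometry Finset

universe u v w

namespace Pool.Agent.Zk50.FI

open Module Polynomial
open Pool.Agent.H914 Pool.Agent.H914.VarClass Pool.Agent.H914.VarClass.Obj
  Pool.Agent.H914.WeilCohomology Pool.Agent.W534

section Lin

variable {K : Type*} [Field K] {V : Type*} [AddCommGroup V] [Module K V] [FiniteDimensional K V]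

lemma trace_pow_roots (σ : K →+* ℂ) (f : End K V) (m : ℕ) :
    σ (LinearMap.trace K V (f ^ m)) = ((f.charpoly.map σ).roots.map fun z => z ^ m).sum := by
  set b := Module.finBasis K V
  set A := LinearMap.toMatrix b b f with hA
  have h1 : LinearMap.trace K V (f ^ m) = (A ^ m).trace := by
    rw [LinearMap.trace_eq_matrix_trace K b, LinearMap.toMatrix_pow]
  have h2 : f.charpoly.map σ = (A.map σ).charpoly := by
    rw [Matrix.charpoly_map, hA, LinearMap.charpoly_toMatrix]
  rw [h1, h2, ← Pool.Agent.Helper605.trace_pow_roots, ← Matrix.map_pow]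
  simp [Matrix.trace]

lemma trace_proj_mul {gr : ℕ → Submodule K V} (h : DirectSum.IsInternal gr) (i : ℕ)
    {g : End K V} (hg : ∀ x ∈ gr i, g x ∈ gr i) :
    LinearMap.trace K V (proj h i * g) = LinearMap.trace K (gr i) (g.restrict hg) := by
  rw [LinearMap.trace_mul_comm]
  have h1 : ∀ x, (g * proj h i) x ∈ gr i := fun x => hg _ (proj_mem h i x)
  have h2 := LinearMap.trace_restrict_eq_of_forall_mem (gr i) (g * proj h i) h1
  rw [← h2]
  congr 1
  apply LinearMap.ext
  rintro ⟨x, hx⟩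
  apply Subtype.ext
  change g (proj h i x) = g x
  rw [proj_same h hx]

/-- The multiplicities are determined by the power sums. -/
lemma count_eq_of_pow {N : ℕ} {A B : ℕ → Multiset ℂ}
    (h : ∀ m, 0 < m → ∑ i ∈ range N, (-1 : ℂ) ^ i * ((A i).map fun z => z ^ m).sum =
      ∑ i ∈ range N, (-1 : ℂ) ^ i * ((B i).map fun z => z ^ m).sum) {β : ℂ} (hβ : β ≠ 0) :
    ∑ i ∈ range N, (-1 : ℂ) ^ i * ((A i).count β : ℂ) =
      ∑ i ∈ range N, (-1 : ℂ) ^ i * ((B i).count β : ℂ) := by
  classical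
  set S : Finset ℂ := ((range N).biUnion fun i => (A i).toFinset ∪ (B i).toFinset) ∪ {β} with hS
  set S' := S.erase 0 with hS'
  have key : ∀ (C : Multiset ℂ), C.toFinset ⊆ S → ∀ m, 0 < m → (C.map fun z => z ^ m).sum =
      ∑ z ∈ S', (C.count z : ℂ) * z ^ m := by
    intro C hC m hm
    have h1 : (C.map fun z => z ^ m).sum = ∑ z ∈ C.toFinset, (C.count z : ℂ) * z ^ m := by
      rw [Finset.sum_multiset_map_count]
      simp only [nsmul_eq_mul]
    rw [h1, Finset.sum_subset hC]
    · rw [hS']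
      by_cases h0 : (0 : ℂ) ∈ S
      · rw [← Finset.add_sum_erase _ _ h0, zero_pow hm.ne', mul_zero, zero_add]
      · rw [Finset.erase_eq_of_notMem h0]
    · intro z _ hz
      rw [Multiset.mem_toFinset] at hz
      rw [Multiset.count_eq_zero.2 hz, Nat.cast_zero, zero_mul]
  have hA : ∀ i ∈ range N, (A i).toFinset ⊆ S := fun i hi z hz =>
    Finset.mem_union_left _ (Finset.mem_biUnion.2 ⟨i, hi, Finset.mem_union_left _ hz⟩)
  have hB : ∀ i ∈ range N, (B i).toFinset ⊆ S := fun i hi z hz =>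
    Finset.mem_union_left _ (Finset.mem_biUnion.2 ⟨i, hi, Finset.mem_union_right _ hz⟩)
  have h0 : (0 : ℂ) ∉ S' := Finset.notMem_erase 0 S
  have h2 := Pool.Agent.N177.CL.eq_zero_of_pow S' h0 (fun z => ∑ i ∈ range N, (-1 : ℂ) ^ i *
    (((A i).count z : ℂ) - ((B i).count z : ℂ))) (by
      intro m hm
      have h3 := sub_eq_zero.2 (h m hm)
      rw [← Finset.sum_sub_distrib] at h3
      rw [← h3]
      simp only [Finset.sum_mul]
      rw [Finset.sum_comm]
      refine Finset.sum_congr rfl fun i hi => ?_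
      rw [key _ (hA i hi) m hm, key _ (hB i hi) m hm, ← mul_sub, ← Finset.sum_sub_distrib,
        Finset.mul_sum]
      refine Finset.sum_congr rfl fun z _ => ?_
      ring)
  have h3 := h2 β (Finset.mem_erase.2 ⟨hβ, Finset.mem_union_right _ (Finset.mem_singleton_self _)⟩)
  simp only [mul_sub] at h3
  rw [Finset.sum_sub_distrib] at h3
  exact sub_eq_zero.1 h3

end Lin

variable {k : Type u} [Field k] {𝒱 : VarClass k} {ops : CycleOps 𝒱}
  {W : WeilCohomology.{u, v} ops} {p : ℕ} (Φ : FrobSystem W p) {Z : 𝒱.Obj}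

/-- The intersection number of the graph of an endomorphism and the diagonal. -/
noncomputable def fixNumber (ops : CycleOps 𝒱) {Z : 𝒱.Obj} (f : Z ⟶ Z) : ℚ :=
  Z.V.degCycle (ops.pull (diag Z) (ops.push (Obj.lift f (𝟙 Z)) Z.V.fundCycle))

lemma trace_par_map (W : WeilCohomology.{u, v} ops) (f : Z ⟶ Z) :
    LinearMap.trace W.K (W.H Z) (par (W.isInternal Z) * (W.map f).toLinearMap) =
      (fixNumber ops f : W.K) := by
  have h1 : (Z.prod Z).IsCyc Z.dim (ops.push (Obj.lift f (𝟙 Z)) Z.V.fundCycle) :=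
    ops.push_mem _ Z.V.fundCycle_mem (by rw [dim_prod, zero_add])
  rw [← corr_graph (W := W) f, trace_par_corr, ← W.cl_pull, W.tr_cl (ops.pull_mem _ h1)]
  rfl

lemma trace_par_frob (σ : W.K →+* ℂ) (s m : ℕ) :
    ∑ i ∈ range (2 * Z.dim + 1), (-1 : ℂ) ^ i *
      (((frobOn Φ Z s i).charpoly.map σ).roots.map fun z => z ^ m).sum =
      (fixNumber ops (W534.iter (Φ.Fr Z) (s * m)) : ℂ) := by
  have h1 := trace_par_map W (W534.iter (Φ.Fr Z) (s * m))
  have h2 := congrArg σ h1
  rw [map_ratCast] at h2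
  rw [← h2, trace_par_eq (W.isInternal Z) (n := Z.dim) (fun i hi => W.gr_eq_bot Z i (by omega)),
    map_sum]
  refine Finset.sum_congr rfl fun i _ => ?_
  rw [map_mul, map_pow, map_neg, map_one, ← trace_pow_roots]
  congr 2
  rw [trace_proj_mul (W.isInternal Z) i (fun x hx => W.map_mem _ hx)]
  congr 1
  apply LinearMap.ext
  rintro ⟨x, hx⟩
  apply Subtype.ext
  have key : ∀ m : ℕ, (((frobOn Φ Z s i) ^ m) ⟨x, hx⟩ : W.H Z) =
      (frob Φ Z s ^ m) x := by
    intro m
    induction m with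
    | zero => rfl
    | succ m ih =>
      rw [pow_succ', pow_succ', Module.End.mul_apply, Module.End.mul_apply, ← ih]
      rfl
  rw [key, ← frob_mul_eq]
  rfl

end Pool.Agent.Zk50.FI
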