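import Pool.Agent.Zk50.FI.Defs
import Pool.Agent.Zk50.FI.Tr
import Pool.Agent.Y129.Gal

/-!
# The index of the Tate classes over finite fields is independent of the cohomology theory
-/

open CategoryTheory AlgebraicGeometry Finset Filter Topology

open scoped ENNReal

universe u v

namespace Pool.Agent.Zk50.FI

open Module Polynomial
open Pool.Agent.H914 Pool.Agent.H914.VarClass Pool.Agent.H914.VarClass.Obj
  Pool.Agent.H914.WeilCohomology Pool.Agent.W534 Pool.Agent.Y133.Half Pool.Agent.H281R3.HT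
open Pool.Agent.Y129 (finrank_iSup_eq_sum indep_even mem_of_mem_iSup)
open Pool.Agent.H447 (HomEqNumIn)

variable {k : Type u} [Field k] {𝒱 : VarClass k} {ops : CycleOps 𝒱}

section One

variable {W : WeilCohomology.{u, v} ops} {p : ℕ} (Φ : FrobSystem W p) {Z : 𝒱.Obj}

lemma signed_count (hp : 1 < p) (σ : W.K →+* ℂ) (hRH : RiemannHyp Φ σ Z) {s : ℕ} (hs : 0 < s)
    {j : ℕ} (hj : j ≤ Z.dim) :
    ∑ i ∈ range (2 * Z.dim + 1), (-1 : ℂ) ^ i *
      (((frobOn Φ Z s i).charpoly.map σ).roots.count ((card Φ Z s : ℂ) ^ j) : ℂ) =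
      (finrank W.K (genTate Φ Z s j) : ℂ) := by
  classical
  have hone : 1 < card Φ Z s := Nat.one_lt_pow (Nat.mul_pos (Φ.e_pos Z) hs).ne' hp
  have hmon : ∀ i, ((frobOn Φ Z s i).charpoly.map σ).Monic := fun i =>
    (LinearMap.charpoly_monic _).map σ
  have hzero : ∀ i, i ≠ 2 * j →
      ((frobOn Φ Z s i).charpoly.map σ).roots.count ((card Φ Z s : ℂ) ^ j) = 0 := by
    intro i hi
    rw [Multiset.count_eq_zero]
    intro h
    rw [mem_roots (hmon i).ne_zero] at h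
    have h1 := hRH s hs i _ (by rw [frobPoly_eq]; exact h)
    rw [norm_pow, Complex.norm_natCast, ← pow_mul] at h1
    have h2 : j * 2 = i := by
      have h3 : card Φ Z s ^ (j * 2) = card Φ Z s ^ i := by exact_mod_cast h1
      exact Nat.pow_right_injective hone h3
    omega
  have hmain : ((frobOn Φ Z s (2 * j)).charpoly.map σ).roots.count ((card Φ Z s : ℂ) ^ j) =
      Module.finrank W.K (genTate Φ Z s j) := by
    have e1 : ((card Φ Z s : ℂ) ^ j) = σ ((card Φ Z s : W.K) ^ j) := by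
      rw [map_pow, map_natCast]
    rw [count_roots, e1, ← eq_rootMultiplicity_map σ.injective,
      ← LinearMap.finrank_maxGenEigenspace_eq]
    have h1 := Submodule.inf_genEigenspace (W.map (W534.iter (Φ.Fr Z) s)).toLinearMap
      (W.gr Z (2 * j)) (k := ⊤) (μ := (card Φ Z s : W.K) ^ j) (fun _ hx => W.map_mem _ hx)
    have h2 : genTate Φ Z s j = (Module.End.genEigenspace (frobOn Φ Z s (2 * j))
        ((card Φ Z s : W.K) ^ j) ⊤).map (W.gr Z (2 * j)).subtype := by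
      rw [genTate, inf_comm]
      exact h1
    rw [h2]
    exact LinearEquiv.finrank_eq (Submodule.equivMapOfInjective _
      (Submodule.subtype_injective _) _)
  have hn : 2 * j ∈ Finset.range (2 * Z.dim + 1) := by
    rw [Finset.mem_range]
    omega
  rw [Finset.sum_eq_single_of_mem (2 * j) hn, hmain, pow_mul]
  · simp
  · intro i _ hi
    rw [hzero i hi]
    simp

/-- A common level for all codimensions. -/
lemma exists_level (Z : 𝒱.Obj) : ∃ t, 0 < t ∧ ∀ j ≤ Z.dim, ∀ s, 0 < s →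
    genTate Φ Z s j ≤ genTate Φ Z t j := by
  have key : ∀ d : ℕ, ∃ t, 0 < t ∧ ∀ j ≤ d, ∀ s, 0 < s → genTate Φ Z s j ≤ genTate Φ Z t j := by
    intro d
    induction d with
    | zero =>
      obtain ⟨t, ht, h⟩ := exists_stable Φ Z 0
      refine ⟨t, ht, fun j hj => ?_⟩
      obtain rfl : j = 0 := by omega
      exact h
    | succ d ih =>
      obtain ⟨t, ht, h⟩ := ih
      obtain ⟨t', ht', h'⟩ := exists_stable Φ Z (d + 1)
      refine ⟨t * t', Nat.mul_pos ht ht', fun j hj s hs => ?_⟩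
      by_cases hj' : j = d + 1
      · subst hj'
        exact (h' s hs).trans (genTate_mono' Φ t' t _)
      · exact (h j (by omega) s hs).trans (genTate_mono Φ t t' _)
  exact key Z.dim

lemma TC_eq {t : ℕ} (ht : 0 < t) (h : ∀ j ≤ Z.dim, ∀ s, 0 < s → genTate Φ Z s j ≤ genTate Φ Z t j) :
    TC Φ Z = ⨆ j, genTate Φ Z t j := by
  apply le_antisymm
  · intro x hx
    refine TC.ind (q := fun x => x ∈ ⨆ j, genTate Φ Z t j) ?_ ?_ ?_ hx
    · intro s j hs x hx
      by_cases hj : j ≤ Z.dim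
      · exact le_iSup (fun j => genTate Φ Z t j) j (h j hj s hs hx)
      · have h1 := hx.2
        rw [W.gr_eq_bot Z (2 * j) (by omega)] at h1
        rw [(Submodule.mem_bot _).1 h1]
        exact Submodule.zero_mem _
    · exact Submodule.zero_mem _
    · intro x y hx hy; exact Submodule.add_mem _ hx hy
  · exact iSup_le fun j x hx => TC.of ht hx

lemma finrank_TC {t : ℕ} (ht : 0 < t)
    (h : ∀ j ≤ Z.dim, ∀ s, 0 < s → genTate Φ Z s j ≤ genTate Φ Z t j) :
    finrank W.K (TC Φ Z) = ∑ j ∈ range (Z.dim + 1), finrank W.K (genTate Φ Z t j) := by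
  rw [TC_eq Φ ht h]
  apply finrank_iSup_eq_sum
  · exact (indep_even W Z).mono fun j => inf_le_right
  · intro j hj
    rw [eq_bot_iff, ← W.gr_eq_bot Z (2 * j) (by omega)]
    exact inf_le_right

/-- The rank of the generalised Tate classes of codimension `j`. -/
noncomputable def gRank (Φ : FrobSystem W p) (Z : 𝒱.Obj) (j : ℕ) : ℕ :=
  finrank W.K (⨆ s, ⨆ (_ : 0 < s), genTate Φ Z s j : Submodule W.K (W.H Z))

lemma gRank_eq {t j : ℕ} (ht : 0 < t) (h : ∀ s, 0 < s → genTate Φ Z s j ≤ genTate Φ Z t j) :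
    gRank Φ Z j = finrank W.K (genTate Φ Z t j) := by
  have h1 : (⨆ s, ⨆ (_ : 0 < s), genTate Φ Z s j : Submodule W.K (W.H Z)) = genTate Φ Z t j := by
    apply le_antisymm
    · exact iSup₂_le h
    · exact le_iSup₂_of_le t ht le_rfl
  rw [gRank, h1]

lemma finrank_TC_eq (Z : 𝒱.Obj) :
    finrank W.K (TC Φ Z) = ∑ j ∈ range (Z.dim + 1), gRank Φ Z j := by
  obtain ⟨t, ht, h⟩ := exists_level Φ Z
  rw [finrank_TC Φ ht h]
  refine Finset.sum_congr rfl fun j hj => (gRank_eq Φ ht (h j ?_)).symm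
  have := Finset.mem_range.1 hj
  omega

/-- If the Frobenius endomorphism is semisimple, all generalised Tate classes are Tate classes. -/
lemma isTate_of_gen (hss : FrobSemisimple Φ Z) {s j : ℕ} (hs : 0 < s) {x : W.H Z}
    (hx : x ∈ genTate Φ Z s j) : IsTate Φ Z j x := by
  have h1 := frob_semisimple Φ hss s
  refine ⟨hx.2, s, hs, ?_⟩
  have h2 := hx.1
  change x ∈ (frob Φ Z s).maxGenEigenspace _ at h2
  rw [h1.isFinitelySemisimple.maxGenEigenspace_eq_eigenspace, Module.End.mem_eigenspace_iff] at h2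
  rw [← card_pow]
  exact h2

lemma tateSet_eq (hss : FrobSemisimple Φ Z) {t j : ℕ} (ht : 0 < t)
    (h : ∀ s, 0 < s → genTate Φ Z s j ≤ genTate Φ Z t j) :
    {c | IsTate Φ Z j c} = (genTate Φ Z t j : Set (W.H Z)) := by
  ext c
  constructor
  · intro hc
    obtain ⟨s, hs, h1⟩ := Pool.Agent.W534.IsTate.mem Φ hc
    exact h s hs h1
  · intro hc
    exact isTate_of_gen Φ hss ht hc

lemma dimOf_tate (hss : FrobSemisimple Φ Z) (j : ℕ) : dimOf W {c | IsTate Φ Z j c} = gRank Φ Z j := by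
  obtain ⟨t, ht, h⟩ := exists_stable Φ Z j
  rw [gRank_eq Φ ht h, dimOf, Set.finrank, tateSet_eq Φ hss ht h, Submodule.span_eq]

lemma isPole (hp : 1 < p) (σ : W.K →+* ℂ) (hRH : RiemannHyp Φ σ Z) {j : ℕ} (hj : j ≤ Z.dim) :
    ∃ t, 0 < t ∧ ∀ s, 0 < s → t ∣ s →
    meromorphicOrderAt (zetaFn Φ σ Z s) (j : ℂ) = ((-(gRank Φ Z j : ℤ) : ℤ) : WithTop ℤ) := by
  obtain ⟨t, ht, h⟩ := exists_stable Φ Z j
  refine ⟨t, ht, fun s hs hts => ?_⟩
  rw [order_zetaFn Φ hp σ hRH hs hj, eq_of_stable Φ h hs hts, gRank_eq Φ ht h]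

lemma poleFormula_iff' (hp : 1 < p) (σ : W.K →+* ℂ) (hRH : RiemannHyp Φ σ Z) {j : ℕ}
    (hj : j ≤ Z.dim) : PoleFormula Φ σ Z j ↔ gRank Φ Z j = numRank ops Z j := by
  obtain ⟨t, ht, h⟩ := isPole Φ hp σ hRH hj
  constructor
  · rintro ⟨t', ht', h'⟩
    have h1 := h (t * t') (Nat.mul_pos ht ht') (dvd_mul_right t t')
    have h2 := h' (t * t') (Nat.mul_pos ht ht') (dvd_mul_left t' t)
    rw [h1] at h2
    have h3 := WithTop.coe_injective h2
    omega
  · intro h1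
    refine ⟨t, ht, fun s hs hts => ?_⟩
    rw [h s hs hts, h1]

lemma spanCycles_le (W : WeilCohomology.{u, v} ops) (Z : 𝒱.Obj) (j : ℕ) :
    spanCycles W Z j ≤ algSpan W Z := by
  rw [spanCycles, Submodule.span_le]
  rintro c ⟨q, hq, z, hz, rfl⟩
  exact Submodule.subset_span (Set.mem_iUnion.2 ⟨q, z, hz, rfl⟩)

lemma TSpan_eq_iff (Z : 𝒱.Obj) : TSpan Φ Z = algSpan W Z ↔ ∀ j, TateIn Φ Z j := by
  constructor
  · intro h j c hc
    refine spanCycles_of_algSpan ?_ hc.1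
    rw [← h]
    exact TSpan.of hc
  · intro h
    apply le_antisymm
    · intro c hc
      exact TSpan.ind (q := fun c => c ∈ algSpan W Z) (fun j x hx => spanCycles_le W Z j (h j x hx))
        (Submodule.zero_mem _) (fun _ _ hx hy => Submodule.add_mem _ hx hy)
        (fun r _ hx => Submodule.smul_mem _ r hx) hc
    · exact alg_le_trueTate Φ Z

lemma homEqNum_in {j : ℕ} (hj : j ≤ Z.dim) (h : HomEqNum W Z) : HomEqNumIn W Z j :=
  fun z hz h1 => h j hj z hz h1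

end One

variable {p : ℕ} {Fr : ∀ X : 𝒱.Obj, X ⟶ X} {e : 𝒱.Obj → ℕ}

/-- The ranks of the generalised Tate classes are independent of the theory. -/
lemma gRank_indep (hp : 1 < p) (T T' : FrobTheory.{u, v} ops p Fr e) (Z : 𝒱.Obj) {j : ℕ}
    (hj : j ≤ Z.dim) : gRank T.Φ Z j = gRank T'.Φ Z j := by
  obtain ⟨t, ht, h⟩ := exists_stable T.Φ Z j
  obtain ⟨t', ht', h'⟩ := exists_stable T'.Φ Z j
  have hpos : 0 < t * t' := Nat.mul_pos ht ht'
  have hcard : card T.Φ Z (t * t') = card T'.Φ Z (t * t') := by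
    rw [Pool.Agent.W534.card, Pool.Agent.W534.card, T.e_eq, T'.e_eq]
  have e1 := eq_of_stable T.Φ h hpos (dvd_mul_right t t')
  have e2 := eq_of_stable T'.Φ h' hpos (dvd_mul_left t' t)
  rw [gRank_eq T.Φ ht h, gRank_eq T'.Φ ht' h', ← e1, ← e2]
  have h1 := signed_count T.Φ hp T.σ (T.riemann Z) hpos hj
  have h2 := signed_count T'.Φ hp T'.σ (T'.riemann Z) hpos hj
  have h3 := count_eq_of_pow (N := 2 * Z.dim + 1)
    (A := fun i => ((frobOn T.Φ Z (t * t') i).charpoly.map T.σ).roots)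
    (B := fun i => ((frobOn T'.Φ Z (t * t') i).charpoly.map T'.σ).roots)
    (fun m _ => by
      have h4 := trace_par_frob T.Φ (Z := Z) T.σ (t * t') m
      have h5 := trace_par_frob T'.Φ (Z := Z) T'.σ (t * t') m
      rw [T.Fr_eq] at h4
      rw [T'.Fr_eq] at h5
      exact h4.trans h5.symm)
    (β := (card T.Φ Z (t * t') : ℂ) ^ j)
    (pow_ne_zero _ (Nat.cast_ne_zero.2 (card_pos T.Φ _).ne'))
  rw [h1] at h3
  rw [← hcard] at h2
  rw [h2] at h3
  exact_mod_cast h3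

lemma tateDim_eq' (T : FrobTheory.{u, v} ops p Fr e) (Z : 𝒱.Obj) :
    T.tateDim Z = finrank T.W.K (TSpan T.Φ Z) := rfl

/-- **The index over finite fields.** -/
theorem field_index (hp : 1 < p) (h0 : Nonempty (FrobTheory.{u, v} ops p Fr e)) (X : 𝒱.Obj) :
    ∃ (N : ℕ∞) (r : ℕ → ℕ → ℕ), 1 ≤ N ∧
      Tendsto (fun n => ((∑ j ∈ range ((pw X n).dim + 1), r n j : ℕ) : ℝ≥0∞) /
        cycRank ops (pw X n)) atTop (𝓝 (N : ℝ≥0∞)) ∧
      ∀ T : FrobTheory.{u, v} ops p Fr e,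
        (∀ n, ∀ j ≤ (pw X n).dim, T.IsPoleOrder (pw X n) j (r n j)) ∧
        Tendsto (fun n => (T.tateDim (pw X n) : ℝ≥0∞) / cycRank ops (pw X n)) atTop
          (𝓝 (N : ℝ≥0∞)) ∧
        (N = 1 ↔ T.TatePowers X ∧ ∀ n, HomEqNum T.W (pw X n)) ∧
        (N ≠ ⊤ → ∀ n, HomEqNum T.W (pw X n) ∧ FrobSemisimple T.Φ (pw X n) ∧
          ∀ j ≤ (pw X n).dim, T.tateRank (pw X n) j = r n j ∧
            (TateIn T.Φ (pw X n) j ↔ r n j = numRank ops (pw X n) j)) := by
  obtain ⟨T₀⟩ := h0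
  have hnt : ∀ T : FrobTheory.{u, v} ops p Fr e, Nontrivial (T.W.H X) := fun T => T.nontrivial X
  have hsum : ∀ (T : FrobTheory.{u, v} ops p Fr e) n, finrank T.W.K (TC T.Φ (pw X n)) =
      ∑ j ∈ range ((pw X n).dim + 1), gRank T₀.Φ (pw X n) j := by
    intro T n
    rw [finrank_TC_eq]
    refine Finset.sum_congr rfl fun j hj => gRank_indep hp T T₀ _ ?_
    have := Finset.mem_range.1 hj
    omega
  have := hnt T₀
  obtain ⟨N, h1, h2, -, -, -⟩ := Sys.index (tateSys T₀.Φ) (alg_le_tate T₀.Φ) X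
  have h2' : Tendsto (fun n => ((∑ j ∈ range ((pw X n).dim + 1), gRank T₀.Φ (pw X n) j : ℕ) :
      ℝ≥0∞) / cycRank ops (pw X n)) atTop (𝓝 (N : ℝ≥0∞)) := by
    simp only [← hsum T₀]
    exact h2
  -- semisimplicity
  have hss : ∀ T : FrobTheory.{u, v} ops p Fr e, (∀ n, HomEqNum T.W (pw X n)) →
      ∀ n, FrobSemisimple T.Φ (pw X n) := by
    intro T h n
    apply frobSemisimple_of_homEqNum
    exact (homEqNum_iso (pwAdd X n n)).2 (h _)
  have hTC : ∀ T : FrobTheory.{u, v} ops p Fr e, (∀ n, HomEqNum T.W (pw X n)) →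
      ∀ n, TSpan T.Φ (pw X n) = TC T.Φ (pw X n) := by
    intro T h n
    exact TSpan_eq T.Φ (hss T h 0) n
  -- the index of the Tate classes
  have key : ∀ T : FrobTheory.{u, v} ops p Fr e, ∃ N' : ℕ∞,
      Tendsto (fun n => (T.tateDim (pw X n) : ℝ≥0∞) / cycRank ops (pw X n)) atTop
        (𝓝 (N' : ℝ≥0∞)) ∧
      (N' = 1 ↔ T.TatePowers X ∧ ∀ n, HomEqNum T.W (pw X n)) ∧
      (N' ≠ ⊤ → ∀ n, HomEqNum T.W (pw X n)) := by
    intro T
    have := hnt T
    obtain ⟨N', -, h3, -, h4, h5⟩ := Sys.index (trueTateSys T.Φ) (alg_le_trueTate T.Φ) X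
    refine ⟨N', h3, ?_, h5⟩
    rw [h4]
    have h6 : ∀ n, (trueTateSys T.Φ).C (pw X n) = algSpan T.W (pw X n) ↔
        ∀ j, TateIn T.Φ (pw X n) j := fun n => TSpan_eq_iff T.Φ (pw X n)
    simp only [h6]
    exact forall_and
  have hN : ∀ (T : FrobTheory.{u, v} ops p Fr e) (N' : ℕ∞),
      Tendsto (fun n => (T.tateDim (pw X n) : ℝ≥0∞) / cycRank ops (pw X n)) atTop
        (𝓝 (N' : ℝ≥0∞)) → (N' ≠ ⊤ → ∀ n, HomEqNum T.W (pw X n)) → N' = N := by
    intro T N' h3 h4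
    have hle : (N' : ℝ≥0∞) ≤ (N : ℝ≥0∞) := by
      refine le_of_tendsto_of_tendsto' h3 h2' fun n => ?_
      apply ENNReal.div_le_div_right
      rw [← hsum T]
      exact_mod_cast Submodule.finrank_mono (TSpan_le T.Φ (pw X n))
    have hle' : N' ≤ N := by exact_mod_cast hle
    by_cases hNt : N' = ⊤
    · rw [hNt] at hle' ⊢
      exact (top_le_iff.1 hle').symm
    · have h5 := hTC T (h4 hNt)
      have h6 : Tendsto (fun n => (T.tateDim (pw X n) : ℝ≥0∞) / cycRank ops (pw X n)) atTop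
          (𝓝 (N : ℝ≥0∞)) := by
        have h7 : ∀ n, T.tateDim (pw X n) =
            ∑ j ∈ range ((pw X n).dim + 1), gRank T₀.Φ (pw X n) j := fun n => by
          rw [tateDim_eq', h5 n, hsum T]
        simp only [h7]
        exact h2'
      exact ENat.toENNReal_inj.1 (tendsto_nhds_unique h3 h6)
  refine ⟨N, fun n j => gRank T₀.Φ (pw X n) j, h1, h2', fun T => ?_⟩
  obtain ⟨N', h3, h4, h5⟩ := key T
  obtain rfl := hN T N' h3 h5
  refine ⟨fun n j hj => ?_, h3, h4, fun hNt n => ⟨h5 hNt n, hss T (h5 hNt) n, fun j hj => ?_⟩⟩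
  · change T.IsPoleOrder (pw X n) j (gRank T₀.Φ (pw X n) j)
    rw [← gRank_indep hp T T₀ _ hj]
    exact isPole T.Φ hp T.σ (T.riemann _) hj
  · change T.tateRank (pw X n) j = gRank T₀.Φ (pw X n) j ∧
      (TateIn T.Φ (pw X n) j ↔ gRank T₀.Φ (pw X n) j = numRank ops (pw X n) j)
    rw [← gRank_indep hp T T₀ _ hj]
    refine ⟨dimOf_tate T.Φ (hss T (h5 hNt) n) j, ?_⟩
    have h6 := pole_iff_tate (Φ := T.Φ) (σ := T.σ) hp (T.riemann (pw X n)) hj
    rw [poleFormula_iff' T.Φ hp T.σ (T.riemann _) hj] at h6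
    rw [h6]
    exact ⟨fun h => ⟨h, homEqNum_in hj (h5 hNt n)⟩, fun h => h.1⟩

end Pool.Agent.Zk50.FI
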