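import Pool.Agent.Y133.Half.TrueTate
import Pool.Agent.Y133.Half.PairPow
import Pool.Agent.W534.QOp
import Pool.Agent.W534.PoleD
import Pool.Agent.H914R2.Span

/-!
# Homological equals numerical equivalence implies that the Frobenius endomorphism is semisimple
-/

open CategoryTheory AlgebraicGeometry

universe u v

namespace Pool.Agent.Zk50.FI

open Module Polynomial
open Pool.Agent.H914 Pool.Agent.H914.VarClass Pool.Agent.H914.VarClass.Obj
  Pool.Agent.H914.WeilCohomology Pool.Agent.W534 Pool.Agent.W458.MF Pool.Agent.W536.RR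
  Pool.Agent.Y133.Half Pool.Agent.H281R3.HT

section Lin

variable {K : Type*} [Field K] [CharZero K] {V : Type*} [AddCommGroup V] [Module K V]
  [FiniteDimensional K V]

lemma expand_separable {P : K[X]} (hP : P.Separable) (h0 : P.coeff 0 ≠ 0) {s : ℕ} (hs : 0 < s) :
    (expand K s P).Separable := by
  rw [separable_def, derivative_expand]
  apply IsCoprime.mul_right
  · have h1 := (separable_def P).1 hP
    exact h1.map (expand K s : K[X] →ₐ[K] K[X]).toRingHom
  · apply IsCoprime.mul_right
    · have h2 : IsUnit ((s : K[X])) := by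
        rw [← map_natCast (C : K →+* K[X])]
        exact (isUnit_C).2 (isUnit_iff_ne_zero.2 (Nat.cast_ne_zero.2 hs.ne'))
      obtain ⟨u, hu⟩ := h2
      exact ⟨0, ((u⁻¹ : K[X]ˣ) : K[X]), by rw [zero_mul, zero_add, ← hu, Units.inv_mul]⟩
    · apply IsCoprime.pow_right
      rw [isCoprime_comm, (irreducible_X).coprime_iff_not_dvd, X_dvd_iff, expand_eq_sum]
      intro h3
      apply h0
      have h4 := coeff_expand_mul hs P 0
      rw [zero_mul, expand_eq_sum] at h4
      rw [← h4]
      exact h3

lemma semisimple_of_pow {f : End K V} (hf : Function.Injective f) {s : ℕ} (hs : 0 < s)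
    (h : (f ^ s).IsSemisimple) : f.IsSemisimple := by
  have h1 : (minpoly K (f ^ s)).Separable := by
    rw [PerfectField.separable_iff_squarefree]
    exact h.minpoly_squarefree
  have h2 : (minpoly K (f ^ s)).coeff 0 ≠ 0 := by
    intro h0
    have h3 : (minpoly K (f ^ s)).IsRoot 0 := by
      rw [IsRoot, ← coeff_zero_eq_eval_zero]
      exact h0
    have h4 := Module.End.hasEigenvalue_of_isRoot h3
    obtain ⟨x, hx⟩ := h4.exists_hasEigenvector
    have h5 : (f ^ s) x = 0 := by
      rw [hx.apply_eq_smul, zero_smul]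
    have h6 : Function.Injective (f ^ s : End K V) := by
      rw [Module.End.coe_pow]
      exact hf.iterate s
    exact hx.2 (h6 (by rw [h5, map_zero]))
  refine Module.End.isSemisimple_of_squarefree_aeval_eq_zero (p := expand K s (minpoly K (f ^ s)))
    ?_ ?_
  · exact (expand_separable h1 h2 hs).squarefree
  · rw [expand_aeval, minpoly.aeval]

end Lin

variable {k : Type u} [Field k] {𝒱 : VarClass k} {ops : CycleOps 𝒱}
  {W : WeilCohomology.{u, v} ops} {X Y Z : 𝒱.Obj} {p : ℕ} (Φ : FrobSystem W p)

/-- A power of the Frobenius endomorphism commutes with the algebraic correspondences. -/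
lemma exists_commute (X : 𝒱.Obj) : ∃ N, 0 < N ∧ ∀ c ∈ spanCycles W (X.prod X) X.dim,
    Commute (W.corr c) (frob Φ X N) := by
  obtain ⟨t, ht, h⟩ := exists_span_eig Φ (X.prod X) X.dim
  obtain ⟨a, b, ha, hb, hab, h1⟩ := frob_comm Φ (fst X X)
  obtain ⟨a', b', ha', hb', hab', h2⟩ := frob_comm Φ (snd X X)
  have hN : b * (t * a') = b' * (t * a) := by
    have h3 : b * (t * a') * Φ.e X = b' * (t * a) * Φ.e X := by
      calc b * (t * a') * Φ.e X = (b * Φ.e X) * (t * a') := by ring
        _ = (a * Φ.e (X.prod X)) * (t * a') := by rw [hab]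
        _ = (a' * Φ.e (X.prod X)) * (t * a) := by ring
        _ = (b' * Φ.e X) * (t * a) := by rw [hab']
        _ = _ := by ring
    exact Nat.eq_of_mul_eq_mul_right (Φ.e_pos X) h3
  have hM : a * (t * a') = a' * (t * a) := by ring
  refine ⟨b * (t * a'), by positivity, fun c hc => ?_⟩
  have hab2 : a * (t * a') * Φ.e (X.prod X) = b * (t * a') * Φ.e X := by
    calc a * (t * a') * Φ.e (X.prod X) = (a * Φ.e (X.prod X)) * (t * a') := by ring
      _ = _ := by rw [hab]; ring
  have hcard : card Φ (X.prod X) (a * (t * a')) = card Φ X (b * (t * a')) := card_eq_of Φ hab2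
  have hGc : frob Φ (X.prod X) (a * (t * a')) c =
      ((card Φ X (b * (t * a')) : W.K) ^ X.dim) • c := by
    have h3 := span_eig_mul Φ (h c hc) (a * a')
    have e : a * (t * a') = t * (a * a') := by ring
    rw [← hcard, e]
    exact h3
  have hq : (card Φ X (b * (t * a')) : W.K) ≠ 0 := card_ne Φ _
  apply LinearMap.ext
  intro x
  rw [Module.End.mul_apply, Module.End.mul_apply, corr_apply, corr_apply]
  have h4 := push_frob (Φ := Φ) (snd X X) (a := a * (t * a')) (b := b * (t * a')) hab2
    (fun y => by rw [hM, hN]; exact h2 (t * a) y) (c * W.map (fst X X) x)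
  have h5 : W.map (W534.iter (Φ.Fr (X.prod X)) (a * (t * a'))) (c * W.map (fst X X) x) =
      ((card Φ X (b * (t * a')) : W.K) ^ X.dim) •
        (c * W.map (fst X X) (frob Φ X (b * (t * a')) x)) := by
    have h6 : W.map (W534.iter (Φ.Fr (X.prod X)) (a * (t * a'))) c =
      ((card Φ X (b * (t * a')) : W.K) ^ X.dim) • c := hGc
    rw [map_mul, h1 (t * a') x, h6, smul_mul_assoc]
    rfl
  have h7 := congrArg (fun y => ((card Φ X (b * (t * a')) : W.K) ^ X.dim) • W.push (snd X X) y) h5
  have h8 : ((card Φ X (b * (t * a')) : W.K) ^ (X.prod X).dim) •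
      W.push (snd X X) (c * W.map (fst X X) (frob Φ X (b * (t * a')) x)) =
      ((card Φ X (b * (t * a')) : W.K) ^ (X.prod X).dim) •
      frob Φ X (b * (t * a')) (W.push (snd X X) (c * W.map (fst X X) x)) := by
    refine Eq.trans ?_ h4
    refine Eq.trans ?_ h7.symm
    rw [map_smul, smul_smul, ← pow_add, dim_prod]
  exact smul_right_injective _ (pow_ne_zero _ hq) h8

lemma frob_mem_Op (N : ℕ) : frob Φ X N ∈ (algSys W).Op X X :=
  Sys.Op.map (S := algSys W) (W534.iter (Φ.Fr X) N)

/-- If homological and numerical equivalence agree on `X × X` then the Frobenius endomorphism acts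
semisimply on the cohomology of `X`. -/
theorem frobSemisimple_of_homEqNum (h : HomEqNum W (X.prod X)) : FrobSemisimple Φ X := by
  obtain ⟨N, hN, hcomm⟩ := exists_commute Φ X
  set F : Module.End W.K (W.H X) := frob Φ X N with hF
  have hinj : Function.Injective (W.map (Φ.Fr X)).toLinearMap := by
    have h1 := map_iter_injective Φ (X := X) 1
    have h2 : W534.iter (Φ.Fr X) 1 = Φ.Fr X := by
      change 𝟙 X ≫ Φ.Fr X = Φ.Fr X
      exact Category.id_comp _
    rw [h2] at h1
    exact h1
  have hpow : F = (W.map (Φ.Fr X)).toLinearMap ^ N := by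
    apply LinearMap.ext
    intro x
    rw [Module.End.pow_apply, hF, frob_apply, W534.map_iter]
    rfl
  apply semisimple_of_pow hinj hN
  rw [← hpow]
  obtain ⟨n, hn, s, hs, hnil, hss, hsum⟩ := Module.End.exists_isNilpotent_isSemisimple (f := F)
  -- properties of the polynomials in `F`
  have hOp : ∀ g ∈ Algebra.adjoin W.K {F}, g ∈ (algSys W).Op X X := by
    intro g hg
    induction hg using Algebra.adjoin_induction with
    | mem x hx =>
      rw [Set.mem_singleton_iff] at hx
      rw [hx]
      exact frob_mem_Op Φ N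
    | algebraMap r =>
      rw [Algebra.algebraMap_eq_smul_one]
      exact Submodule.smul_mem _ _ Sys.Op.id
    | add x y _ _ hx hy => exact Submodule.add_mem _ hx hy
    | mul x y _ _ hx hy => exact Sys.Op.comp hx hy
  have hgr : ∀ g ∈ Algebra.adjoin W.K {F}, IsHom (W.gr X) 0 g := by
    intro g hg
    induction hg using Algebra.adjoin_induction with
    | mem x hx =>
      rw [Set.mem_singleton_iff] at hx
      rw [hx]
      intro i a ha
      rw [add_zero]
      by_cases hi : 0 ≤ i
      · lift i to ℕ using hi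
        rw [grZ_natCast] at ha ⊢
        exact W.map_mem _ ha
      · rw [grZ_of_neg (by omega)] at ha ⊢
        rw [(Submodule.mem_bot _).1 ha, map_zero]
        exact Submodule.zero_mem _
    | algebraMap r =>
      rw [Algebra.algebraMap_eq_smul_one]
      exact isHom_one.smul r
    | add x y _ _ hx hy => exact hx.add hy
    | mul x y _ _ hx hy => simpa using hx.mul hy
  have hc : ∀ g ∈ Algebra.adjoin W.K {F}, ∀ c ∈ spanCycles W (X.prod X) X.dim,
      Commute (W.corr c) g := by
    intro g hg c hc
    induction hg using Algebra.adjoin_induction with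
    | mem x hx =>
      rw [Set.mem_singleton_iff] at hx
      rw [hx]
      exact hcomm c hc
    | algebraMap r => exact Algebra.commute_algebraMap_right r _
    | add x y _ _ hx hy => exact hx.add_right hy
    | mul x y _ _ hx hy => exact hx.mul_right hy
  have hnd : Sys.Nondeg (algSys W) (X.prod X) := by
    intro c hc1 hc2
    have h1 : c ∈ (algSys W).Num (X.prod X) := ⟨hc1, hc2⟩
    rw [(homEqNum_iff _).1 h, Submodule.mem_bot] at h1
    exact h1
  have hzero : n = 0 := by
    refine Sys.eq_zero_of_trace hnd (hOp n hn) fun g hg => ?_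
    obtain ⟨c, hc1, rfl⟩ := Sys.mem_Op.1 hg
    refine algSpan_induction (p := fun c => LinearMap.trace W.K (W.H X) (W.corr c ∘ₗ n) = 0)
      ?_ ?_ ?_ ?_ hc1
    · rw [corr_zero, LinearMap.zero_comp, map_zero]
    · intro a b ha hb
      rw [corr_add, LinearMap.add_comp, map_add, ha, hb, add_zero]
    · intro r a ha
      rw [corr_smul, LinearMap.smul_comp, map_smul, ha, smul_zero]
    · intro j z hz
      by_cases hj : j = X.dim
      · subst hj
        have h1 := hc n hn (W.cl _ z) (Submodule.subset_span ⟨X.dim, rfl, z, hz, rfl⟩)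
        have h2 : IsNilpotent (W.corr (W.cl _ z) * n) := h1.isNilpotent_mul_left hnil
        exact (LinearMap.isNilpotent_trace_of_isNilpotent h2).eq_zero
      · have h1 : IsHom (W.gr X) (2 * ((j : ℤ) - X.dim) + 0) (W.corr (W.cl _ z) * n) :=
          (W.corr_isHom (W.cl_mem hz)).mul (hgr n hn)
        exact trace_of_isHom (W.isInternal X) (by omega) h1
  rw [hsum, hzero, zero_add]
  exact hss

end Pool.Agent.Zk50.FI
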